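import Pool.Agent.Lib.MP_69a69c_lc_ORA.Local

/-!
The number of events along a monotone chain of assignments.
-/

namespace Pool.Agent.SparseGates

open Finset Pool.Agent.MP0a1b52 Pool.Agent.CliqueAbs
open Pool.Agent.CliqueModules (chainSum card_union_lt card_incr_le one_le_chainSum)

variable {V : Type} {s m : ℕ}

open Classical in
/-- The largest number of elements of `Y` any two of which are comparable. -/
noncomputable def height (Y : Set (Fin m → Bool)) : ℕ :=
  (univ.filter fun c : Finset (Fin m → Bool) => (c : Set (Fin m → Bool)) ⊆ Y ∧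
    ∀ y ∈ c, ∀ y' ∈ c, y ≤ y' ∨ y' ≤ y).sup Finset.card

theorem le_height {Y : Set (Fin m → Bool)} {c : Finset (Fin m → Bool)}
    (h1 : (c : Set (Fin m → Bool)) ⊆ Y) (h2 : ∀ y ∈ c, ∀ y' ∈ c, y ≤ y' ∨ y' ≤ y) :
    c.card ≤ height Y := by
  classical
  unfold height
  exact le_sup (f := Finset.card) (mem_filter.2 ⟨mem_univ c, h1, h2⟩)

theorem exists_height (Y : Set (Fin m → Bool)) : ∃ c : Finset (Fin m → Bool),
    (c : Set (Fin m → Bool)) ⊆ Y ∧ (∀ y ∈ c, ∀ y' ∈ c, y ≤ y' ∨ y' ≤ y) ∧
    c.card = height Y := by
  classical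
  obtain ⟨c, hc, hc'⟩ := exists_mem_eq_sup (univ.filter fun c : Finset (Fin m → Bool) =>
    (c : Set (Fin m → Bool)) ⊆ Y ∧ ∀ y ∈ c, ∀ y' ∈ c, y ≤ y' ∨ y' ≤ y)
    ⟨∅, mem_filter.2 ⟨mem_univ _, by simp, by simp⟩⟩ Finset.card
  obtain ⟨-, h1, h2⟩ := mem_filter.1 hc
  exact ⟨c, h1, h2, hc'.symm⟩

theorem height_mono {Y Y' : Set (Fin m → Bool)} (h : Y ⊆ Y') : height Y ≤ height Y' := by
  obtain ⟨c, h1, h2, h3⟩ := exists_height Y
  rw [← h3]
  exact le_height (h1.trans h) h2

theorem height_step {Y Y' : Set (Fin m → Bool)} (h : Y ⊆ Y') {e : Fin m → Bool} (he : e ∈ Y')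
    (hlt : ∀ y ∈ Y, y < e) : height Y + 1 ≤ height Y' := by
  classical
  obtain ⟨c, h1, h2, h3⟩ := exists_height Y
  have hne : e ∉ c := fun hc => lt_irrefl e (hlt e (h1 hc))
  rw [← h3, ← card_insert_of_notMem hne]
  apply le_height
  · intro y hy
    rw [mem_coe, mem_insert] at hy
    rcases hy with rfl | hy
    · exact he
    · exact h (h1 hy)
  · intro y hy y' hy'
    rw [mem_insert] at hy hy'
    rcases hy with rfl | hy <;> rcases hy' with rfl | hy'
    · exact Or.inl le_rfl
    · exact Or.inr (hlt _ (h1 hy')).le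
    · exact Or.inl (hlt _ (h1 hy)).le
    · exact h2 y hy y' hy'

/-- The weight of a gate. -/
noncomputable def Gate.nu : Gate V s → ℕ
  | .and _ => 0
  | .or _ => 0
  | .test _ _ Y => height Y

/-- The potential of a gate. -/
noncomputable def Gate.pot (v : V ⊕ Fin s → Prop) : Gate V s → ℕ
  | .and _ => 0
  | .or _ => 0
  | .test _ q Y => height (Y ∩ {e | e < vec v q})

theorem Gate.pot_le (g : Gate V s) (v : V ⊕ Fin s → Prop) : g.pot v ≤ g.nu := by
  cases g with
  | and J => exact le_rfl
  | or J => exact le_rfl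
  | test m q Y => exact height_mono Set.inter_subset_left

theorem Gate.pot_mono {g : Gate V s} {v v' : V ⊕ Fin s → Prop}
    (h : ∀ w ∈ g.wires, v w → v' w) : g.pot v ≤ g.pot v' := by
  cases g with
  | and J => exact le_rfl
  | or J => exact le_rfl
  | test m q Y =>
    apply height_mono
    rintro e ⟨he, h1⟩
    exact ⟨he, lt_of_lt_of_le h1 (vec_mono fun j => h _ ⟨j, rfl⟩)⟩

theorem Gate.pot_lt {g : Gate V s} {v v' : V ⊕ Fin s → Prop}
    (h : ∀ w ∈ g.wires, v w → v' w) (hit : g.Hit v v') : g.pot v < g.pot v' := by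
  cases g with
  | and J => exact absurd hit id
  | or J => exact absurd hit id
  | test m q Y =>
    obtain ⟨e, he, h1, h2⟩ := hit
    refine height_step (e := e) ?_ ⟨he, h2⟩ ?_
    · rintro e' ⟨he', h3⟩
      exact ⟨he', lt_of_lt_of_le h3 (vec_mono fun j => h _ ⟨j, rfl⟩)⟩
    · rintro e' ⟨_, h3⟩
      exact lt_of_lt_of_le h3 h1

/-- The output of gate `i` is a wire feeding gate `j`. -/
def Circuit.Feeds (D : Circuit V s) (i j : Fin s) : Prop :=
  Sum.inr i ∈ (D.gate j).wires

/-- There is a directed path from gate `i` to gate `j`. -/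
def Circuit.Joined (D : Circuit V s) (i j : Fin s) : Prop := Relation.TransGen D.Feeds i j

open Classical in
/-- The sum, over all sets of gates any two of which are joined by a path, of the products of the
weights of the gates. -/
noncomputable def Circuit.weight (D : Circuit V s) : ℕ :=
  ∑ A ∈ (univ : Finset (Fin s)).powerset.filter
    (fun A => ∀ i ∈ A, ∀ j ∈ A, i ≠ j → D.Joined i j ∨ D.Joined j i), ∏ i ∈ A, (D.gate i).nu

theorem Circuit.Joined.lt {D : Circuit V s} {i j : Fin s} (h : D.Joined i j) : i < j := by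
  unfold Circuit.Joined at h
  induction h with
  | single h => exact D.acyclic _ _ h
  | tail _ h ih => exact ih.trans (D.acyclic _ _ h)

theorem Circuit.weight_eq (D : Circuit V s) :
    D.weight = chainSum D.Joined (fun i => (D.gate i).nu) univ := by
  classical
  unfold Circuit.weight chainSum
  refine sum_congr ?_ (fun _ _ => rfl)
  ext A
  rw [mem_filter, mem_filter]
  exact Iff.rfl

theorem one_le_weight (D : Circuit V s) : 1 ≤ D.weight := by
  rw [D.weight_eq]
  exact one_le_chainSum D.Joined (fun i => (D.gate i).nu) univ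

open Classical in
theorem chain_count (D : Circuit V s) (M : ℕ)
    (x : ℕ → V → Prop) (val : ℕ → Fin s → Prop) (hval : ∀ t, D.IsEval (x t) (val t))
    (hx : ∀ t v, x t v → x (t + 1) v) :
    ((range M).filter fun t => (∃ i, (D.gate i).Hit (Sum.elim (x t) (val t))
      (Sum.elim (x (t + 1)) (val (t + 1)))) ∨ ¬ (val t D.out ↔ val (t + 1) D.out)).card ≤
      2 * D.weight := by
  let E : Fin s → Finset ℕ := fun i => (range M).filter fun t =>
    (D.gate i).Hit (Sum.elim (x t) (val t)) (Sum.elim (x (t + 1)) (val (t + 1)))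
  -- monotonicity below a gate
  have hmono : ∀ t, ∀ i : Fin s, (∀ j, D.Joined j i → ¬ (D.gate j).Hit (Sum.elim (x t) (val t))
      (Sum.elim (x (t + 1)) (val (t + 1)))) →
      ∀ w ∈ (D.gate i).wires, Sum.elim (x t) (val t) w →
        Sum.elim (x (t + 1)) (val (t + 1)) w := by
    intro t i hno
    have key : ∀ j, D.Joined j i → val t j → val (t + 1) j := by
      intro j
      induction j using WellFoundedLT.induction with
      | ind j ih =>
        intro hj
        have hw : ∀ w ∈ (D.gate j).wires, Sum.elim (x t) (val t) w →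
            Sum.elim (x (t + 1)) (val (t + 1)) w := by
          intro w hw
          cases w with
          | inl v => exact hx t v
          | inr k => exact ih k (D.acyclic j k hw) (Relation.TransGen.head hw hj)
        rw [hval t j, hval (t + 1) j]
        exact Gate.value_mono hw (hno j hj)
    intro w hw
    cases w with
    | inl v => exact hx t v
    | inr j => exact key j (Relation.TransGen.single hw)
  have hE : ∀ i ∈ (univ : Finset (Fin s)),
      (E i \ (univ.filter fun j => D.Joined j i).biUnion E).card ≤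
      (D.gate i).nu * (1 + ((univ.filter fun j => D.Joined j i).biUnion E).card) := by
    intro i _
    set B := (univ.filter fun j => D.Joined j i).biUnion E with hB
    have hBt : ∀ t, t < M → t ∉ B → ∀ j, D.Joined j i → ¬ (D.gate j).Hit (Sum.elim (x t) (val t))
      (Sum.elim (x (t + 1)) (val (t + 1))) := by
      intro t ht htB j hj hit
      exact htB (mem_biUnion.2 ⟨j, mem_filter.2 ⟨mem_univ _, hj⟩,
        mem_filter.2 ⟨mem_range.2 ht, hit⟩⟩)
    let a : ℕ → ℕ := fun t => (D.gate i).pot (Sum.elim (x (min t M)) (val (min t M)))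
    have h1 := card_incr_le a (D.gate i).nu (fun t => Gate.pot_le _ _) B (by
      intro t ht
      by_cases htM : t < M
      · show (D.gate i).pot (Sum.elim (x (min t M)) (val (min t M))) ≤
          (D.gate i).pot (Sum.elim (x (min (t + 1) M)) (val (min (t + 1) M)))
        rw [min_eq_left htM.le, min_eq_left (by omega : t + 1 ≤ M)]
        exact Gate.pot_mono (hmono t i (hBt t htM ht))
      · show (D.gate i).pot (Sum.elim (x (min t M)) (val (min t M))) ≤
          (D.gate i).pot (Sum.elim (x (min (t + 1) M)) (val (min (t + 1) M)))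
        rw [min_eq_right (by omega : M ≤ t), min_eq_right (by omega : M ≤ t + 1)]) M
    have h2 : E i \ B ⊆ (range M).filter fun t => t ∉ B ∧ a t < a (t + 1) := by
      intro t ht
      obtain ⟨htE, htB⟩ := mem_sdiff.1 ht
      obtain ⟨htM, hit⟩ := mem_filter.1 htE
      have htM' := mem_range.1 htM
      refine mem_filter.2 ⟨htM, htB, ?_⟩
      show (D.gate i).pot (Sum.elim (x (min t M)) (val (min t M))) <
          (D.gate i).pot (Sum.elim (x (min (t + 1) M)) (val (min (t + 1) M)))
      rw [min_eq_left htM'.le, min_eq_left (by omega : t + 1 ≤ M)]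
      exact Gate.pot_lt (hmono t i (hBt t htM' htB)) hit
    have h3 : (range M).filter (fun t => t ∈ B) ⊆ B := fun t ht => (mem_filter.1 ht).2
    calc (E i \ B).card ≤ _ := card_le_card h2
      _ ≤ _ := h1
      _ ≤ _ := Nat.mul_le_mul_left _ (Nat.add_le_add_left (card_le_card h3) _)
  have hU := card_union_lt D.Joined (fun i => (D.gate i).nu) (fun i => i.val) univ
    (fun i _ j _ h => h.lt) (fun i _ j _ k _ h h' => Relation.TransGen.trans h h') E hE
    (univ : Finset (Fin s)).card univ (Subset.refl _) rfl (fun _ _ j _ _ => mem_univ j)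
  rw [← D.weight_eq] at hU
  -- the output
  set B := (univ : Finset (Fin s)).biUnion E with hB
  let b : ℕ → ℕ := fun t => if val (min t M) D.out then 1 else 0
  have houtm : ∀ t, t < M → t ∉ B → (val t D.out → val (t + 1) D.out) := by
    intro t ht htB
    have hno : ∀ i, ¬ (D.gate i).Hit (Sum.elim (x t) (val t))
        (Sum.elim (x (t + 1)) (val (t + 1))) := by
      intro i hi
      exact htB (mem_biUnion.2 ⟨i, mem_univ _, mem_filter.2 ⟨mem_range.2 ht, hi⟩⟩)
    exact (hval t).mono (hval (t + 1)) (hx t) hno (Sum.inr D.out)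
  have h1 := card_incr_le b 1 (by
    intro t
    show (if val (min t M) D.out then 1 else 0) ≤ 1
    split_ifs <;> omega) B (by
    intro t ht
    show (if val (min t M) D.out then 1 else 0) ≤ if val (min (t + 1) M) D.out then 1 else 0
    by_cases htM : t < M
    · rw [min_eq_left htM.le, min_eq_left (by omega : t + 1 ≤ M)]
      have h2 := houtm t htM ht
      split_ifs with h3 h4
      · exact le_rfl
      · exact absurd (h2 h3) h4
      · exact Nat.zero_le _
      · exact le_rfl
    · rw [min_eq_right (by omega : M ≤ t), min_eq_right (by omega : M ≤ t + 1)]) M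
  have h2 : ((range M).filter fun t => (∃ i, (D.gate i).Hit (Sum.elim (x t) (val t))
      (Sum.elim (x (t + 1)) (val (t + 1)))) ∨ ¬ (val t D.out ↔ val (t + 1) D.out)) ⊆
      B ∪ (range M).filter fun t => t ∉ B ∧ b t < b (t + 1) := by
    intro t ht
    obtain ⟨htM, hcase⟩ := mem_filter.1 ht
    have htM' := mem_range.1 htM
    by_cases htB : t ∈ B
    · exact mem_union_left _ htB
    · apply mem_union_right
      refine mem_filter.2 ⟨htM, htB, ?_⟩
      rcases hcase with ⟨i, hi⟩ | hne
      · exact absurd (mem_biUnion.2 ⟨i, mem_univ _, mem_filter.2 ⟨htM, hi⟩⟩) htB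
      · show (if val (min t M) D.out then 1 else 0) < if val (min (t + 1) M) D.out then 1 else 0
        rw [min_eq_left htM'.le, min_eq_left (by omega : t + 1 ≤ M)]
        have h3 := houtm t htM' htB
        have h0 : ¬ val t D.out := fun h => hne ⟨h3, fun _ => h⟩
        have h1 : val (t + 1) D.out := by
          by_contra h
          exact hne ⟨h3, fun h' => absurd h' h⟩
        rw [if_neg h0, if_pos h1]
        norm_num
  have h3 : (range M).filter (fun t => t ∈ B) ⊆ B := fun t ht => (mem_filter.1 ht).2
  have h4 := (card_le_card h2).trans (card_union_le _ _)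
  have h5 := card_le_card h3
  omega

/-- The number of events of the acceptor of a circuit. -/
theorem Circuit.chainLE (D : Circuit V s) (T : Finset V) :
    D.acceptor.ChainLE T (2 * D.weight) := by
  classical
  intro M x hx _
  choose val hval using fun t => D.exists_eval (x t)
  refine le_trans (card_le_card ?_) (chain_count D M x val hval hx)
  intro t ht
  obtain ⟨htM, v, v', hv, hv', h⟩ := mem_filter.1 ht
  refine mem_filter.2 ⟨htM, ?_⟩
  rw [(hval t).unique hv, (hval (t + 1)).unique hv']
  exact h

end Pool.Agent.SparseGates
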