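import Pool.Agent.Lib.MP_0a1b52_lc_RND.Defs

/-!
Circuits with oracle gates.
-/

namespace Pool.Agent.OracleClique

open Pool.Agent.CliqueModules (EdgeVar HasClique)

/-- A gate of an oracle circuit with variables `V` and gates numbered by `Fin s`. Its wires are
variables (`Sum.inl v`) or outputs of other gates (`Sum.inr j`). It is an AND gate or an OR gate fed
by the wires in `J`, a NOT gate, or an oracle gate, which asks the oracle for the word formed by the
values of the wires `q 0, ..., q (m - 1)`. -/
inductive Gate (V : Type) (s : ℕ) : Type
  | and (J : Finset (V ⊕ Fin s)) : Gate V s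
  | or (J : Finset (V ⊕ Fin s)) : Gate V s
  | not (w : V ⊕ Fin s) : Gate V s
  | query (m : ℕ) (q : Fin m → V ⊕ Fin s) : Gate V s

/-- The wires feeding a gate. -/
def Gate.wires {V : Type} {s : ℕ} : Gate V s → Set (V ⊕ Fin s)
  | .and J => (J : Set (V ⊕ Fin s))
  | .or J => (J : Set (V ⊕ Fin s))
  | .not w => {w}
  | .query _ q => Set.range q

open Classical in
/-- The value computed by a gate with the oracle `S`, when the wires have the values `v`. -/
noncomputable def Gate.value {V : Type} {s : ℕ} (S : Set (List Bool)) (v : V ⊕ Fin s → Prop) :
    Gate V s → Prop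
  | .and J => ∀ w ∈ J, v w
  | .or J => ∃ w ∈ J, v w
  | .not w => ¬ v w
  | .query _ q => List.ofFn (fun j => decide (v (q j))) ∈ S

/-- An oracle circuit with `s` gates over the variables `V`. The gates are numbered `0, ..., s - 1`
in a topological order, and `out` is the output gate. -/
structure Circuit (V : Type) (s : ℕ) where
  gate : Fin s → Gate V s
  acyclic : ∀ i j : Fin s, Sum.inr j ∈ (gate i).wires → j < i
  out : Fin s

/-- `val` is the vector of the values of all gates of `D` on the assignment `x`, with the oracle `S`
(it exists and is unique, since the gates are numbered topologically). -/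
def Circuit.IsEval {V : Type} {s : ℕ} (D : Circuit V s) (S : Set (List Bool)) (x : V → Prop)
    (val : Fin s → Prop) : Prop :=
  ∀ i, val i ↔ (D.gate i).value S (Sum.elim x val)

/-- `D` accepts the graph `G`, with the oracle `S`. -/
def Circuit.Accepts {n s : ℕ} (D : Circuit (EdgeVar n) s) (S : Set (List Bool))
    (G : SimpleGraph (Fin n)) : Prop :=
  ∃ val : Fin s → Prop, D.IsEval S (fun e => G.Adj e.1.1 e.1.2) val ∧ val D.out

open Classical in
/-- The probability that `D` accepts a random member of the finite family `G` of graphs. -/
noncomputable def Circuit.acceptProb {n s N : ℕ} (D : Circuit (EdgeVar n) s) (S : Set (List Bool))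
    (G : Fin N → SimpleGraph (Fin n)) : ℝ :=
  ((Finset.univ.filter fun i => D.Accepts S (G i)).card : ℝ) / N

/-- The number of words of length `m` in `S`. -/
noncomputable def census (S : Set (List Bool)) (m : ℕ) : ℕ :=
  {y : Fin m → Bool | List.ofFn y ∈ S}.ncard

open Classical in
/-- The largest number of words of length `m` in `S` any two of which are comparable in the bitwise
order. -/
noncomputable def chainLength (S : Set (List Bool)) (m : ℕ) : ℕ :=
  (Finset.univ.filter fun c : Finset (Fin m → Bool) => (∀ y ∈ c, List.ofFn y ∈ S) ∧
    ∀ y ∈ c, ∀ y' ∈ c, y ≤ y' ∨ y' ≤ y).sup Finset.card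

/-- The weight of a gate: `1` for a NOT gate, the chain length of the oracle for an oracle gate. -/
noncomputable def Gate.weight {V : Type} {s : ℕ} (S : Set (List Bool)) : Gate V s → ℕ
  | .and _ => 0
  | .or _ => 0
  | .not _ => 1
  | .query m _ => chainLength S m

/-- The output of gate `i` is a wire feeding gate `j`. -/
def Circuit.Feeds {V : Type} {s : ℕ} (D : Circuit V s) (i j : Fin s) : Prop :=
  Sum.inr i ∈ (D.gate j).wires

/-- There is a directed path from gate `i` to gate `j`. -/
def Circuit.Joined {V : Type} {s : ℕ} (D : Circuit V s) (i j : Fin s) : Prop :=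
  Relation.TransGen D.Feeds i j

open Classical in
/-- The sum, over all sets of gates any two of which are joined by a path, of the products of the
weights of the gates. (The sets containing an AND gate or an OR gate contribute `0`, the empty set
contributes `1`.) -/
noncomputable def Circuit.weight {V : Type} {s : ℕ} (D : Circuit V s) (S : Set (List Bool)) : ℕ :=
  ∑ A ∈ (Finset.univ : Finset (Fin s)).powerset.filter
    (fun A => ∀ i ∈ A, ∀ j ∈ A, i ≠ j → D.Joined i j ∨ D.Joined j i),
    ∏ i ∈ A, (D.gate i).weight S

end Pool.Agent.OracleClique
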