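import Pool.Agent.Lib.MP_69a69c_lc_ORA.Sparse

/-!
The local dichotomy for circuits with test gates.
-/

namespace Pool.Agent.SparseGates

open Finset Pool.Agent.MP0a1b52 Pool.Agent.CliqueAbs

variable {V : Type} {s m : ℕ}

/-- Insert many conjunctions. -/
theorem Good.insert_ands {I κ ι : Type} [DecidableEq I] [DecidableEq κ] {r d a : ℕ}
    {F : Set (Set I → Prop)} (h : Good r d F a) (E : Finset κ) (J : κ → Finset ι)
    (g : κ → ι → Set I → Prop) (hg : ∀ e ∈ E, ∀ j ∈ J e, g e j ∈ F) :
    Good r d (F ∪ {f | ∃ e ∈ E, f = fun x => ∀ j ∈ J e, g e j x}) (a + E.card) := by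
  induction E using Finset.induction_on with
  | empty =>
    refine (h.mono (by omega)).subset ?_
    rintro f (hf | ⟨e, he, -⟩)
    · exact hf
    · exact absurd he (notMem_empty _)
  | insert e E he ih =>
    have h1 := ih (fun e' he' => hg e' (mem_insert_of_mem he'))
    have h2 := h1.insert_and (J e) (g e) (fun j hj => Or.inl (hg e (mem_insert_self _ _) j hj))
    rw [card_insert_of_notMem he]
    refine (h2.mono (by omega)).subset ?_
    rintro f (hf | ⟨e', he', rfl⟩)
    · exact Or.inr (Or.inl hf)
    · rcases mem_insert.1 he' with rfl | he'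
      · exact Or.inl rfl
      · exact Or.inr (Or.inr ⟨e', he', rfl⟩)

/-- Insert many disjunctions. -/
theorem Good.insert_ors {I κ ι : Type} [DecidableEq I] [DecidableEq κ] {r d a : ℕ}
    {F : Set (Set I → Prop)} (h : Good r d F a) (E : Finset κ) (J : κ → Finset ι)
    (g : κ → ι → Set I → Prop) (hg : ∀ e ∈ E, ∀ j ∈ J e, g e j ∈ F) :
    Good r d (F ∪ {f | ∃ e ∈ E, f = fun x => ∃ j ∈ J e, g e j x}) (a + E.card) := by
  induction E using Finset.induction_on with
  | empty =>
    refine (h.mono (by omega)).subset ?_
    rintro f (hf | ⟨e, he, -⟩)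
    · exact hf
    · exact absurd he (notMem_empty _)
  | insert e E he ih =>
    have h1 := ih (fun e' he' => hg e' (mem_insert_of_mem he'))
    have h2 := h1.insert_or (J e) (g e) (fun j hj => Or.inl (hg e (mem_insert_self _ _) j hj))
    rw [card_insert_of_notMem he]
    refine (h2.mono (by omega)).subset ?_
    rintro f (hf | ⟨e', he', rfl⟩)
    · exact Or.inr (Or.inl hf)
    · rcases mem_insert.1 he' with rfl | he'
      · exact Or.inl rfl
      · exact Or.inr (Or.inr ⟨e', he', rfl⟩)

/-- The functions `e < vec q` and the frozen value of a test gate. -/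
theorem Good.insert_test {I : Type} [DecidableEq I] {r d a : ℕ}
    {F : Set (Set I → Prop)} (h : Good r d F a) (q : Fin m → V ⊕ Fin s) (Y : Finset (Fin m → Bool))
    (W : Set I → V ⊕ Fin s → Prop) (v0 : V ⊕ Fin s → Prop)
    (hW : ∀ j, (fun z => W z (q j)) ∈ F) :
    Good r d (F ∪ {f | (∃ e ∈ Y, f = fun z => e < vec (W z) q) ∨
      f = fun z => ∃ e ∈ Y, vec v0 q ≤ e ∧ e ≤ vec (W z) q}) (a + (3 * Y.card + 1)) := by
  classical
  -- e ≤ vec
  have h1 := Good.insert_ands h Y (fun e => univ.filter fun j => e j = true)
    (fun _ j z => W z (q j)) (fun e _ j _ => hW j)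
  have e1 : ∀ e : Fin m → Bool, (fun z : Set I => ∀ j ∈ univ.filter (fun j => e j = true),
      W z (q j)) = fun z => e ≤ vec (W z) q := by
    intro e
    funext z
    apply propext
    rw [le_vec]
    simp
  -- some false coordinate of e is on
  have h2 := Good.insert_ors h1 Y (fun e => univ.filter fun j => e j = false)
    (fun _ j z => W z (q j)) (fun e _ j _ => Or.inl (hW j))
  have e2 : ∀ e : Fin m → Bool, ∀ z : Set I, e < vec (W z) q ↔ (e ≤ vec (W z) q ∧
      ∃ j ∈ univ.filter (fun j => e j = false), W z (q j)) := by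
    intro e z
    rw [Pi.lt_def]
    refine and_congr_right fun hle => ?_
    constructor
    · rintro ⟨j, hj⟩
      refine ⟨j, ?_, ?_⟩
      · rw [mem_filter]
        refine ⟨mem_univ _, ?_⟩
        by_contra hc
        have : e j = true := by simpa using hc
        rw [this] at hj
        exact not_lt_of_ge le_top hj
      · by_contra hc
        have : vec (W z) q j = false := by
          unfold vec
          simpa using hc
        rw [this] at hj
        exact not_lt_of_ge bot_le hj
    · rintro ⟨j, hj, hv⟩
      have h3 : e j = false := (mem_filter.1 hj).2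
      have h4 : vec (W z) q j = true := by
        unfold vec
        simpa using hv
      exact ⟨j, by rw [h3, h4]; exact Bool.false_lt_true⟩
  -- e < vec
  have h3 := Good.insert_ands h2 Y (fun _ => (univ : Finset Bool))
    (fun e b z => if b = true then (∀ j ∈ univ.filter (fun j => e j = true), W z (q j)) else
      ∃ j ∈ univ.filter (fun j => e j = false), W z (q j)) (by
      intro e he b _
      cases b with
      | true =>
        left; right
        exact ⟨e, he, by simp⟩
      | false =>
        right
        exact ⟨e, he, by simp⟩)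
  -- the frozen value
  have h4 := h3.insert_or (Y.filter fun e => vec v0 q ≤ e)
    (fun e z => ∀ j ∈ univ.filter (fun j => e j = true), W z (q j)) (by
      intro e he
      left; left; right
      exact ⟨e, (mem_filter.1 he).1, rfl⟩)
  refine (h4.mono (by omega)).subset ?_
  rintro f (hf | ⟨e, he, rfl⟩ | rfl)
  · exact Or.inr (Or.inl (Or.inl (Or.inl hf)))
  · right; right
    refine ⟨e, he, ?_⟩
    funext z
    apply propext
    rw [e2]
    simp only [mem_univ, true_implies, Bool.forall_bool, if_true, if_false, Bool.false_eq_true]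
    rw [and_comm]
    refine and_congr Iff.rfl ?_
    exact iff_of_eq (congrFun (e1 e).symm z)
  · left
    funext z
    apply propext
    constructor
    · rintro ⟨e, he, h5, h6⟩
      refine ⟨e, mem_filter.2 ⟨he, h5⟩, ?_⟩
      have := congrFun (e1 e) z
      exact this.symm ▸ h6
    · rintro ⟨e, he, h6⟩
      obtain ⟨he, h5⟩ := mem_filter.1 he
      have := congrFun (e1 e) z
      exact ⟨e, he, h5, this ▸ h6⟩

/-- All gates of a frozen circuit, and all the events, are approximated with common errors. -/
theorem frozen_good {I : Type} [DecidableEq I] (D : Circuit V s) (v0 : V ⊕ Fin s → Prop)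
    (c : ℕ) (hc : ∀ i m q Y, D.gate i = Gate.test m q Y → Y.ncard ≤ c) (d : ℕ) (hd : 2 ≤ d)
    (X : Set I → V → Prop)
    (hX : ∀ v, (∃ ι, ∀ z, X z v ↔ ι ∈ z) ∨ (∃ p : Prop, ∀ z, X z v ↔ p))
    (val : Set I → Fin s → Prop) (hval : ∀ z, D.IsFrozen v0 (X z) (val z)) :
    Good d d ({g | ∃ w, g = fun z => Sum.elim (X z) (val z) w} ∪
      {g | ∃ i m q Y, D.gate i = Gate.test m q Y ∧ ∃ e ∈ Y,
        g = fun z => e < vec (Sum.elim (X z) (val z)) q}) (s * (3 * c + 1)) := by
  have key : ∀ i ≤ s, Good d d (({g | ∃ v, g = fun z => X z v} ∪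
      {g | ∃ j : Fin s, j.val < i ∧ g = fun z => val z j}) ∪
      {g | ∃ j : Fin s, j.val < i ∧ ∃ m q Y, D.gate j = Gate.test m q Y ∧ ∃ e ∈ Y,
        g = fun z => e < vec (Sum.elim (X z) (val z)) q}) (i * (3 * c + 1)) := by
    intro i
    induction i with
    | zero =>
      intro _
      refine ((CliqueModules.good_inputs d hd X hX).mono (Nat.zero_le _)).subset ?_
      rintro g ((hg | ⟨j, hj, _⟩) | ⟨j, hj, _⟩)
      · exact hg
      · omega
      · omega
    | succ i ih =>
      intro hi
      have ih' := ih (by omega)
      set 𝓖 := (({g | ∃ v, g = fun z => X z v} ∪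
        {g | ∃ j : Fin s, j.val < i ∧ g = fun z => val z j}) ∪
        {g | ∃ j : Fin s, j.val < i ∧ ∃ m q Y, D.gate j = Gate.test m q Y ∧ ∃ e ∈ Y,
        g = fun z => e < vec (Sum.elim (X z) (val z)) q} : Set (Set I → Prop)) with h𝓖
      set k : Fin s := ⟨i, by omega⟩ with hk
      have hwire : ∀ w ∈ (D.gate k).wires, (fun z => Sum.elim (X z) (val z) w) ∈ 𝓖 := by
        intro w hw
        cases w with
        | inl v => exact Or.inl (Or.inl ⟨v, rfl⟩)
        | inr j => exact Or.inl (Or.inr ⟨j, D.acyclic k j hw, rfl⟩)
      have hstep : Good d d (𝓖 ∪ {g | (g = fun z => val z k) ∨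
          ∃ m q Y, D.gate k = Gate.test m q Y ∧ ∃ e ∈ Y,
          g = fun z => e < vec (Sum.elim (X z) (val z)) q}) (i * (3 * c + 1) + (3 * c + 1)) := by
        cases hg : D.gate k with
        | and J =>
          have hval' : (fun z => val z k) =
              fun z => ∀ w ∈ J, (fun w z => Sum.elim (X z) (val z) w) w z := by
            funext z
            apply propext
            have := hval z k
            rw [hg] at this
            exact this
          have h1 := ih'.insert_and J (fun w z => Sum.elim (X z) (val z) w) (by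
            intro w hw
            exact hwire w (by rw [hg]; exact hw))
          rw [← hval'] at h1
          refine (h1.mono (by omega)).subset ?_
          rintro g (hg' | rfl | ⟨m, q, Y, h2, -⟩)
          · exact Or.inr hg'
          · exact Or.inl rfl
          · cases h2
        | or J =>
          have hval' : (fun z => val z k) =
              fun z => ∃ w ∈ J, (fun w z => Sum.elim (X z) (val z) w) w z := by
            funext z
            apply propext
            have := hval z k
            rw [hg] at this
            exact this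
          have h1 := ih'.insert_or J (fun w z => Sum.elim (X z) (val z) w) (by
            intro w hw
            exact hwire w (by rw [hg]; exact hw))
          rw [← hval'] at h1
          refine (h1.mono (by omega)).subset ?_
          rintro g (hg' | rfl | ⟨m, q, Y, h2, -⟩)
          · exact Or.inr hg'
          · exact Or.inl rfl
          · cases h2
        | test m q Y =>
          have hYfin : Y.Finite := Set.toFinite Y
          have hcard : hYfin.toFinset.card ≤ c := by
            rw [← Set.ncard_eq_toFinset_card Y hYfin]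
            exact hc k m q Y hg
          have h1 := Good.insert_test ih' q hYfin.toFinset (fun z => Sum.elim (X z) (val z)) v0 (by
            intro j
            exact hwire _ (by rw [hg]; exact ⟨j, rfl⟩))
          have hval' : (fun z => val z k) = fun z => ∃ e ∈ hYfin.toFinset, vec v0 q ≤ e ∧
              e ≤ vec (Sum.elim (X z) (val z)) q := by
            funext z
            apply propext
            have := hval z k
            rw [hg] at this
            rw [this]
            show (∃ e ∈ Y, _) ↔ _
            simp only [Set.Finite.mem_toFinset]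
          refine (h1.mono (by
            have : 3 * hYfin.toFinset.card + 1 ≤ 3 * c + 1 := by omega
            omega)).subset ?_
          rintro g (hg' | rfl | ⟨m', q', Y', h2, e, he, rfl⟩)
          · exact Or.inl hg'
          · right; right
            exact hval'
          · right; left
            cases h2
            exact ⟨e, by simpa using he, rfl⟩
      have heq : (i + 1) * (3 * c + 1) = i * (3 * c + 1) + (3 * c + 1) := by ring
      rw [heq]
      refine hstep.subset ?_
      rintro g ((hg | ⟨j, hj, rfl⟩) | ⟨j, hj, m, q, Y, h2, e, he, rfl⟩)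
      · exact Or.inl (Or.inl (Or.inl hg))
      · rcases Nat.lt_succ_iff_lt_or_eq.1 hj with hj | hj
        · exact Or.inl (Or.inl (Or.inr ⟨j, hj, rfl⟩))
        · have : j = k := Fin.ext hj
          rw [this]
          exact Or.inr (Or.inl rfl)
      · rcases Nat.lt_succ_iff_lt_or_eq.1 hj with hj | hj
        · exact Or.inl (Or.inr ⟨j, hj, m, q, Y, h2, e, he, rfl⟩)
        · have : j = k := Fin.ext hj
          rw [this] at h2
          exact Or.inr (Or.inr ⟨m, q, Y, h2, e, he, rfl⟩)
  refine (key s le_rfl).subset ?_
  rintro g (⟨w, rfl⟩ | ⟨i, m, q, Y, h2, e, he, rfl⟩)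
  · cases w with
    | inl v => exact Or.inl (Or.inl ⟨v, rfl⟩)
    | inr j => exact Or.inl (Or.inr ⟨j, j.2, rfl⟩)
  · exact Or.inr ⟨i, i.2, m, q, Y, h2, e, he, rfl⟩

/-- The acceptor given by a circuit. -/
def Circuit.acceptor (D : Circuit V s) : Acceptor V where
  Acc x := ∃ val, D.IsEval x val ∧ val D.out
  Ev x y := ∃ v v', D.IsEval x v ∧ D.IsEval y v' ∧
    ((∃ i, (D.gate i).Hit (Sum.elim x v) (Sum.elim y v')) ∨ ¬ (v D.out ↔ v' D.out))

/-- The local dichotomy. -/
theorem Circuit.local_acceptor (D : Circuit V s) (c : ℕ)
    (hc : ∀ i m q Y, D.gate i = Gate.test m q Y → Y.ncard ≤ c) :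
    D.acceptor.Local (s * (3 * c + 1)) := by
  intro I _ _ d hd X hX hmono
  obtain ⟨val0, hval0⟩ := D.exists_eval (X ∅)
  set v0 : V ⊕ Fin s → Prop := Sum.elim (X ∅) val0 with hv0
  choose val hval using fun z => D.exists_frozen v0 (X z)
  have hvalE : val ∅ = val0 := (hval ∅).unique hval0.isFrozen
  have hgood := frozen_good D v0 c hc d hd X hX val hval
  refine ⟨{g | g = (fun z => val z D.out) ∨ ∃ i m q Y, D.gate i = Gate.test m q Y ∧ ∃ e ∈ Y,
    vec v0 q ≤ e ∧ g = fun z => e < vec (Sum.elim (X z) (val z)) q}, ?_, ?_, ?_⟩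
  · refine hgood.subset ?_
    rintro g (rfl | ⟨i, m, q, Y, h1, e, he, -, rfl⟩)
    · exact Or.inl ⟨Sum.inr D.out, rfl⟩
    · exact Or.inr ⟨i, m, q, Y, h1, e, he, rfl⟩
  · rintro z hz ⟨v', hv', hout⟩
    have hno : ∀ i, ¬ (D.gate i).Hit v0 (Sum.elim (X z) (val z)) := by
      intro i hi
      cases hg : D.gate i with
      | and J => rw [hg] at hi; exact hi
      | or J => rw [hg] at hi; exact hi
      | test m q Y =>
        rw [hg] at hi
        obtain ⟨e, he, h1, h2⟩ := hi
        have h3 := hz (fun z => e < vec (Sum.elim (X z) (val z)) q)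
          (Or.inr ⟨i, m, q, Y, hg, e, he, h1, rfl⟩) h2
        simp only [hvalE] at h3
        exact absurd (lt_of_lt_of_le h3 h1) (lt_irrefl _)
    have hev := Circuit.IsFrozen.isEval hval0 (hval z) (hmono z) hno
    have hvv : v' = val z := hv'.unique hev
    have h4 := hz (fun z => val z D.out) (Or.inl rfl) (by
      show val z D.out
      rw [← hvv]
      exact hout)
    refine ⟨val0, hval0, ?_⟩
    rw [← hvalE]
    exact h4
  · intro z g hg hg0 hgz
    obtain ⟨v', hv'⟩ := D.exists_eval (X z)
    refine ⟨val0, v', hval0, hv', ?_⟩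
    by_contra hcon
    rw [not_or] at hcon
    obtain ⟨hc1, hc2⟩ := hcon
    have hno : ∀ i, ¬ (D.gate i).Hit (Sum.elim (X ∅) val0) (Sum.elim (X z) v') :=
      fun i hi => hc1 ⟨i, hi⟩
    have hfr := hval0.frozen hv' (hmono z) hno
    have hvv : v' = val z := hfr.unique (hval z)
    rcases hg with rfl | ⟨i, m, q, Y, h1, e, he, h2, rfl⟩
    · simp only [hvalE] at hg0
      refine hg0 ((not_not.1 hc2).2 ?_)
      rw [hvv]
      exact hgz
    · apply hno i
      rw [h1]
      exact ⟨e, he, h2, by rw [hvv]; exact hgz⟩

end Pool.Agent.SparseGates
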