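import Pool.Agent.Lib.MP_69a69c_lc_ORA.Count
import Pool.Agent.Lib.MP_69a69c_lc_ORA.Defs

/-!
The lower bound for oracle circuits.
-/

namespace Pool.Agent.OracleClique

open Finset Pool.Agent.CliqueAbs
open Pool.Agent.CliqueModules (EdgeVar HasClique)

variable {V : Type} {s : ℕ}

/-- A gate of an oracle circuit as a gate with few accepted vectors. -/
def Gate.toG (S : Set (List Bool)) : Gate V s → SparseGates.Gate V s
  | .and J => .and J
  | .or J => .or J
  | .not w => .test 1 (fun _ => w) {fun _ => false}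
  | .query m q => .test m q {y | List.ofFn y ∈ S}

theorem Gate.toG_wires (S : Set (List Bool)) (g : Gate V s) : (g.toG S).wires = g.wires := by
  cases g with
  | and J => rfl
  | or J => rfl
  | not w =>
    show Set.range (fun _ : Fin 1 => w) = {w}
    exact Set.range_const
  | query m q => rfl

theorem Gate.toG_value (S : Set (List Bool)) (g : Gate V s) (v : V ⊕ Fin s → Prop) :
    (g.toG S).value v ↔ g.value S v := by
  cases g with
  | and J => exact Iff.rfl
  | or J => exact Iff.rfl
  | not w =>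
    show SparseGates.vec v (fun _ : Fin 1 => w) ∈ ({fun _ => false} : Set (Fin 1 → Bool)) ↔ ¬ v w
    rw [Set.mem_singleton_iff]
    constructor
    · intro h
      have := congrFun h 0
      unfold SparseGates.vec at this
      simpa using this
    · intro h
      funext j
      unfold SparseGates.vec
      simpa using h
  | query m q =>
    show SparseGates.vec v q ∈ {y | List.ofFn y ∈ S} ↔ _
    exact Iff.rfl

theorem height_single : SparseGates.height ({fun _ => false} : Set (Fin 1 → Bool)) = 1 := by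
  apply le_antisymm
  · obtain ⟨c, h1, -, h3⟩ := SparseGates.exists_height ({fun _ => false} : Set (Fin 1 → Bool))
    rw [← h3]
    have : c ⊆ {fun _ => false} := by
      intro y hy
      have := h1 hy
      rw [mem_singleton]
      exact this
    calc c.card ≤ ({fun _ => false} : Finset (Fin 1 → Bool)).card := card_le_card this
      _ = 1 := card_singleton _
  · have := SparseGates.le_height (Y := ({fun _ => false} : Set (Fin 1 → Bool)))
      (c := {fun _ => false}) (by simp) (by simp)
    simpa using this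

theorem Gate.toG_nu (S : Set (List Bool)) (g : Gate V s) : (g.toG S).nu = g.weight S := by
  cases g with
  | and J => rfl
  | or J => rfl
  | not w =>
    show SparseGates.height ({fun _ => false} : Set (Fin 1 → Bool)) = 1
    exact height_single
  | query m q =>
    show SparseGates.height {y : Fin m → Bool | List.ofFn y ∈ S} = chainLength S m
    classical
    unfold SparseGates.height chainLength
    congr 1
    ext c
    rw [mem_filter, mem_filter]
    exact Iff.rfl

/-- An oracle circuit as a circuit of gates with few accepted vectors. -/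
def Circuit.toG (D : Circuit V s) (S : Set (List Bool)) : SparseGates.Circuit V s where
  gate i := (D.gate i).toG S
  acyclic i j h := D.acyclic i j (by rwa [Gate.toG_wires] at h)
  out := D.out

theorem Circuit.toG_isEval (D : Circuit V s) (S : Set (List Bool)) (x : V → Prop)
    (val : Fin s → Prop) : (D.toG S).IsEval x val ↔ D.IsEval S x val := by
  unfold SparseGates.Circuit.IsEval Circuit.IsEval
  refine forall_congr' fun i => ?_
  rw [← Gate.toG_value S (D.gate i)]
  exact Iff.rfl

theorem Circuit.toG_weight (D : Circuit V s) (S : Set (List Bool)) :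
    (D.toG S).weight = D.weight S := by
  classical
  have hF : (D.toG S).Feeds = D.Feeds := by
    funext i j
    unfold SparseGates.Circuit.Feeds Circuit.Feeds
    show (Sum.inr i ∈ ((D.gate j).toG S).wires) = _
    rw [Gate.toG_wires]
  have hJ : (D.toG S).Joined = D.Joined := by
    unfold SparseGates.Circuit.Joined Circuit.Joined
    rw [hF]
  unfold SparseGates.Circuit.weight Circuit.weight
  refine sum_congr ?_ ?_
  · ext A
    rw [mem_filter, mem_filter, hJ]
  · intro A _
    refine prod_congr rfl fun i _ => ?_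
    exact Gate.toG_nu S (D.gate i)

theorem card_edgeVar (n : ℕ) (hn : 2 ≤ n) :
    n ^ 2 ≤ 4 * (univ : Finset (EdgeVar n)).card := by
  have h1 : (univ : Finset (EdgeVar n)).card = Fintype.card (EdgeVar n) := card_univ
  -- the pairs `(i, j)` with `i ≠ j`
  have h2 : ((univ : Finset (Fin n)).offDiag).card ≤
      ((univ : Finset (EdgeVar n)) ×ˢ (univ : Finset Bool)).card := by
    refine card_le_card_of_injOn (fun p : Fin n × Fin n =>
      if h : p.1 < p.2 then ((⟨p, h⟩ : EdgeVar n), true) else
      if h' : p.2 < p.1 then ((⟨(p.2, p.1), h'⟩ : EdgeVar n), false) else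
        ((⟨(⟨0, by omega⟩, ⟨1, by omega⟩), by rw [Fin.lt_def]; norm_num⟩ : EdgeVar n), true)) ?_ ?_
    · intro p _
      simp
    · intro p hp p' hp' h
      rw [mem_coe, mem_offDiag] at hp hp'
      have k1 : p.1 < p.2 ∨ p.2 < p.1 := lt_or_gt_of_ne hp.2.2
      have k2 : p'.1 < p'.2 ∨ p'.2 < p'.1 := lt_or_gt_of_ne hp'.2.2
      rcases k1 with k1 | k1 <;> rcases k2 with k2 | k2
      · simp only [dif_pos k1, dif_pos k2, Prod.mk.injEq, Subtype.mk.injEq] at h
        exact h.1
      · simp only [dif_pos k1, dif_neg (not_lt.2 k2.le), dif_pos k2, Prod.mk.injEq] at h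
        exact absurd h.2 (by simp)
      · simp only [dif_pos k2, dif_neg (not_lt.2 k1.le), dif_pos k1, Prod.mk.injEq] at h
        exact absurd h.2 (by simp)
      · simp only [dif_neg (not_lt.2 k1.le), dif_pos k1, dif_neg (not_lt.2 k2.le), dif_pos k2,
          Prod.mk.injEq, Subtype.mk.injEq] at h
        exact Prod.ext h.1.2 h.1.1
  rw [offDiag_card, card_product, card_univ (α := Fin n), Fintype.card_fin, card_univ (α := Bool),
    Fintype.card_bool] at h2
  have h3 : n * 2 ≤ n * n := Nat.mul_le_mul_left _ hn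
  rw [sq]
  omega

theorem oracle_main : ∃ C : ℕ, ∀ n R c : ℕ, C * (Nat.log 2 (n * R * (c + 1)) + 1) ^ 8 ≤ n →
    ∃ (N : ℕ) (P Q : Fin N → SimpleGraph (Fin n)),
      0 < N ∧ (∀ i, HasClique (P i)) ∧ (∀ i, ¬ HasClique (Q i)) ∧
      ∀ s ≤ R, ∀ (S : Set (List Bool)) (D : Circuit (EdgeVar n) s),
        (∀ i m q, D.gate i = Gate.query m q → census S m ≤ c) →
        (D.acceptProb S P - D.acceptProb S Q) * n ^ 2 ≤
          C * D.weight S * (Nat.log 2 (n * R * (c + 1)) + 1) ^ 8 := by
  classical
  obtain ⟨C, hC⟩ := abs_main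
  obtain ⟨e, he⟩ : ∃ e : ℕ, e = 3 ^ 8 := ⟨_, rfl⟩
  have he0 : 0 < e := by rw [he]; positivity
  refine ⟨8 * (e * (C + 1)), ?_⟩
  intro n R c hn
  set L := Nat.log 2 (n * R * (c + 1)) + 1 with hL
  have hL1 : 1 ≤ L := by omega
  have hL8 : 1 ≤ L ^ 8 := Nat.one_le_pow _ _ hL1
  have hn2 : 2 ≤ n := by
    have h1 : 8 * 1 * 1 ≤ 8 * (e * (C + 1)) * L ^ 8 := by
      refine Nat.mul_le_mul (Nat.mul_le_mul_left _ ?_) hL8
      exact Nat.mul_pos he0 (by omega)
    omega
  rcases Nat.eq_zero_or_pos R with hR | hR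
  · obtain ⟨N, P, Q, hN, hP, hQ⟩ := CliqueModules.trivial_families n hn2
    refine ⟨N, P, Q, hN, hP, hQ, ?_⟩
    intro s hs S D
    have := D.out.isLt
    omega
  -- parameters
  have hRc : 1 ≤ R * (3 * (c + 1) + 1) := Nat.mul_pos hR (by omega)
  have hlog : Nat.log 2 (n * (R * (3 * (c + 1) + 1))) + 1 ≤ 3 * L := by
    have h1 : n * (R * (3 * (c + 1) + 1)) ≤ n * R * (c + 1) * 2 ^ 2 := by
      calc n * (R * (3 * (c + 1) + 1)) = n * R * (3 * (c + 1) + 1) := by ring
        _ ≤ n * R * (4 * (c + 1)) := Nat.mul_le_mul_left _ (by omega)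
        _ = n * R * (c + 1) * 2 ^ 2 := by ring
    have h2 : Nat.log 2 (n * R * (c + 1) * 2 ^ 2) = Nat.log 2 (n * R * (c + 1)) + 2 := by
      have h0 : n * R * (c + 1) ≠ 0 := by positivity
      have e : n * R * (c + 1) * 2 ^ 2 = n * R * (c + 1) * 2 * 2 := by ring
      rw [e, Nat.log_mul_base (by norm_num) (by omega), Nat.log_mul_base (by norm_num) h0]
    have h3 := Nat.log_mono_right (b := 2) h1
    rw [h2] at h3
    omega
  have hlog8 : (Nat.log 2 (n * (R * (3 * (c + 1) + 1))) + 1) ^ 8 ≤ e * L ^ 8 := by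
    rw [he, ← mul_pow]
    exact Nat.pow_le_pow_left hlog 8
  obtain ⟨N, P, Q, hN, hP, hQ, h⟩ := hC n (R * (3 * (c + 1) + 1)) hRc (by
    calc C * (Nat.log 2 (n * (R * (3 * (c + 1) + 1))) + 1) ^ 8 ≤ C * (e * L ^ 8) :=
          Nat.mul_le_mul_left _ hlog8
      _ = (e * C) * L ^ 8 := by ring
      _ ≤ (8 * (e * (C + 1))) * L ^ 8 := by
          apply Nat.mul_le_mul_right
          have : e * C ≤ e * (C + 1) := Nat.mul_le_mul_left _ (Nat.le_succ C)
          omega
      _ ≤ n := hn) univ
  refine ⟨N, P, Q, hN, hP, hQ, ?_⟩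
  intro s hs S D hc
  have hloc := (D.toG S).local_acceptor (c + 1) (by
    intro i m q Y hg
    have hg' : (D.gate i).toG S = SparseGates.Gate.test m q Y := hg
    cases hgi : D.gate i with
    | and J => rw [hgi] at hg'; cases hg'
    | or J => rw [hgi] at hg'; cases hg'
    | not w =>
      rw [hgi] at hg'
      have hg2 : SparseGates.Gate.test 1 (fun _ => w) {fun _ => false} =
        SparseGates.Gate.test m q Y := hg'
      cases hg2
      rw [Set.ncard_singleton]
      omega
    | query m' q' =>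
      rw [hgi] at hg'
      have hg2 : SparseGates.Gate.test m' q' {y | List.ofFn y ∈ S} =
        SparseGates.Gate.test m q Y := hg'
      cases hg2
      exact (hc i m q hgi).trans (by omega))
  have hloc' : ((D.toG S).acceptor).Local (s * (3 * (c + 1) + 1)) := hloc
  have hw : 1 ≤ 2 * (D.toG S).weight := by
    have := SparseGates.one_le_weight (D.toG S)
    omega
  have h1 := h (s * (3 * (c + 1) + 1)) (Nat.mul_le_mul_right _ hs) (2 * (D.toG S).weight) hw
    (D.toG S).acceptor hloc' ((D.toG S).chainLE univ)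
  have hprob : ∀ G : Fin N → SimpleGraph (Fin n),
      (D.toG S).acceptor.prob G = D.acceptProb S G := by
    intro G
    unfold Acceptor.prob Circuit.acceptProb
    congr 2
    refine congrArg Finset.card ?_
    ext i
    rw [mem_filter, mem_filter]
    refine and_congr_right fun _ => ?_
    show (∃ val, (D.toG S).IsEval _ val ∧ _) ↔ ∃ val, D.IsEval S _ val ∧ _
    refine exists_congr fun val => and_congr_left fun _ => ?_
    exact D.toG_isEval S _ val
  rw [hprob, hprob, D.toG_weight S] at h1
  set γ := D.acceptProb S P - D.acceptProb S Q with hγ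
  have hTn : ((n : ℝ)) ^ 2 ≤ 4 * ((univ : Finset (EdgeVar n)).card : ℝ) := by
    exact_mod_cast card_edgeVar n hn2
  have hLc : ((L : ℕ) : ℝ) = (Nat.log 2 (n * R * (c + 1)) : ℝ) + 1 := by rw [hL]; push_cast; rfl
  rw [← hLc]
  have hlog8R : ((Nat.log 2 (n * (R * (3 * (c + 1) + 1))) : ℝ) + 1) ^ 8 ≤ e * (L : ℝ) ^ 8 := by
    exact_mod_cast hlog8
  have hwR : (0 : ℝ) ≤ D.weight S := Nat.cast_nonneg _
  have hCR : (0 : ℝ) ≤ C := Nat.cast_nonneg _
  have hLR : (0 : ℝ) ≤ (L : ℝ) ^ 8 := by positivity
  rcases le_or_gt γ 0 with hγ0 | hγ0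
  · refine (mul_nonpos_of_nonpos_of_nonneg hγ0 (by positivity)).trans ?_
    exact mul_nonneg (mul_nonneg (by positivity) hwR) hLR
  · calc γ * (n : ℝ) ^ 2 ≤ γ * (4 * ((univ : Finset (EdgeVar n)).card : ℝ)) :=
          mul_le_mul_of_nonneg_left hTn hγ0.le
      _ = 4 * (γ * ((univ : Finset (EdgeVar n)).card : ℝ)) := by ring
      _ ≤ 4 * (C * ((2 * D.weight S : ℕ) : ℝ) *
          ((Nat.log 2 (n * (R * (3 * (c + 1) + 1))) : ℝ) + 1) ^ 8) :=
          mul_le_mul_of_nonneg_left h1 (by norm_num)
      _ ≤ 4 * (C * ((2 * D.weight S : ℕ) : ℝ) * (e * (L : ℝ) ^ 8)) := by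
          apply mul_le_mul_of_nonneg_left _ (by norm_num)
          exact mul_le_mul_of_nonneg_left hlog8R (mul_nonneg hCR (Nat.cast_nonneg _))
      _ = (8 * (e * C)) * D.weight S * (L : ℝ) ^ 8 := by push_cast; ring
      _ ≤ (8 * (e * (C + 1))) * D.weight S * (L : ℝ) ^ 8 := by
          apply mul_le_mul_of_nonneg_right _ hLR
          apply mul_le_mul_of_nonneg_right _ hwR
          have : (0 : ℝ) ≤ e := Nat.cast_nonneg _
          nlinarith
      _ = ((8 * (e * (C + 1)) : ℕ) : ℝ) * D.weight S * (L : ℝ) ^ 8 := by push_cast; ring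

end Pool.Agent.OracleClique
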