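import Mathlib
import Pool.Agent.Lib.MP_0a1b52_lc_ABS.Main

/-!
Circuits with AND gates, OR gates and test gates, which accept few vectors of values of their wires.
-/

namespace Pool.Agent.SparseGates

open Finset Pool.Agent.MP0a1b52 Pool.Agent.CliqueAbs

/-- AND, OR and test gates. -/
inductive Gate (V : Type) (s : ℕ) : Type
  | and (J : Finset (V ⊕ Fin s)) : Gate V s
  | or (J : Finset (V ⊕ Fin s)) : Gate V s
  | test (m : ℕ) (q : Fin m → V ⊕ Fin s) (Y : Set (Fin m → Bool)) : Gate V s

variable {V : Type} {s m : ℕ}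

/-- The wires feeding a gate. -/
def Gate.wires : Gate V s → Set (V ⊕ Fin s)
  | .and J => (J : Set (V ⊕ Fin s))
  | .or J => (J : Set (V ⊕ Fin s))
  | .test _ q _ => Set.range q

open Classical in
/-- the vector of the values of the wires `q` -/
noncomputable def vec (v : V ⊕ Fin s → Prop) (q : Fin m → V ⊕ Fin s) : Fin m → Bool :=
  fun j => decide (v (q j))

theorem vec_mono {v v' : V ⊕ Fin s → Prop} {q : Fin m → V ⊕ Fin s}
    (h : ∀ j, v (q j) → v' (q j)) : vec v q ≤ vec v' q := by
  intro j
  unfold vec
  by_cases h1 : v (q j)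
  · have h2 := h j h1
    simp [h1, h2]
  · simp [h1]

theorem vec_congr {v v' : V ⊕ Fin s → Prop} {q : Fin m → V ⊕ Fin s}
    (h : ∀ j, v (q j) ↔ v' (q j)) : vec v q = vec v' q := by
  funext j
  unfold vec
  simp [h j]

theorem le_vec {v : V ⊕ Fin s → Prop} {q : Fin m → V ⊕ Fin s} {e : Fin m → Bool} :
    e ≤ vec v q ↔ ∀ j, e j = true → v (q j) := by
  constructor
  · intro h j hj
    have h1 : vec v q j = true := by
      have := h j
      rw [hj] at this
      exact top_le_iff.1 this
    unfold vec at h1
    simpa using h1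
  · intro h j
    unfold vec
    by_cases hj : e j = true
    · simp [h j hj]
    · have : e j = false := by simpa using hj
      rw [this]
      exact Bool.false_le _

/-- The value computed by a gate, when the wires have the values `v`. -/
def Gate.value (v : V ⊕ Fin s → Prop) : Gate V s → Prop
  | .and J => ∀ w ∈ J, v w
  | .or J => ∃ w ∈ J, v w
  | .test _ q Y => vec v q ∈ Y

/-- The frozen value of a gate. -/
def Gate.frozen (v0 v : V ⊕ Fin s → Prop) : Gate V s → Prop
  | .and J => ∀ w ∈ J, v w
  | .or J => ∃ w ∈ J, v w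
  | .test _ q Y => ∃ e ∈ Y, vec v0 q ≤ e ∧ e ≤ vec v q

/-- An event at a gate. -/
def Gate.Hit (v0 v : V ⊕ Fin s → Prop) : Gate V s → Prop
  | .and _ => False
  | .or _ => False
  | .test _ q Y => ∃ e ∈ Y, vec v0 q ≤ e ∧ e < vec v q

structure Circuit (V : Type) (s : ℕ) where
  gate : Fin s → Gate V s
  acyclic : ∀ i j : Fin s, Sum.inr j ∈ (gate i).wires → j < i
  out : Fin s

def Circuit.IsEval (D : Circuit V s) (x : V → Prop) (val : Fin s → Prop) : Prop :=
  ∀ i, val i ↔ (D.gate i).value (Sum.elim x val)

def Circuit.IsFrozen (D : Circuit V s) (v0 : V ⊕ Fin s → Prop) (x : V → Prop)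
    (val : Fin s → Prop) : Prop :=
  ∀ i, val i ↔ (D.gate i).frozen v0 (Sum.elim x val)

theorem Gate.value_congr {g : Gate V s} {v v' : V ⊕ Fin s → Prop}
    (h : ∀ w ∈ g.wires, v w ↔ v' w) : g.value v ↔ g.value v' := by
  cases g with
  | and J => exact forall₂_congr h
  | or J =>
    constructor
    · rintro ⟨w, hw, hv⟩; exact ⟨w, hw, (h w hw).1 hv⟩
    · rintro ⟨w, hw, hv⟩; exact ⟨w, hw, (h w hw).2 hv⟩
  | test m q Y =>
    show vec v q ∈ Y ↔ vec v' q ∈ Y
    rw [vec_congr (fun j => h _ ⟨j, rfl⟩)]

theorem Gate.frozen_congr {g : Gate V s} {v0 v v' : V ⊕ Fin s → Prop}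
    (h : ∀ w ∈ g.wires, v w ↔ v' w) : g.frozen v0 v ↔ g.frozen v0 v' := by
  cases g with
  | and J => exact forall₂_congr h
  | or J =>
    constructor
    · rintro ⟨w, hw, hv⟩; exact ⟨w, hw, (h w hw).1 hv⟩
    · rintro ⟨w, hw, hv⟩; exact ⟨w, hw, (h w hw).2 hv⟩
  | test m q Y =>
    show (∃ e ∈ Y, vec v0 q ≤ e ∧ e ≤ vec v q) ↔ (∃ e ∈ Y, vec v0 q ≤ e ∧ e ≤ vec v' q)
    rw [vec_congr (v := v) (v' := v') (fun j => h _ ⟨j, rfl⟩)]

theorem Gate.frozen_mono {g : Gate V s} {v0 v v' : V ⊕ Fin s → Prop}
    (h : ∀ w ∈ g.wires, v w → v' w) : g.frozen v0 v → g.frozen v0 v' := by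
  cases g with
  | and J => exact fun h' w hw => h w hw (h' w hw)
  | or J => exact fun ⟨w, hw, hv⟩ => ⟨w, hw, h w hw hv⟩
  | test m q Y =>
    rintro ⟨e, he, h1, h2⟩
    exact ⟨e, he, h1, h2.trans (vec_mono fun j => h _ ⟨j, rfl⟩)⟩

/-- The frozen value at the base is the value. -/
theorem Gate.frozen_self {g : Gate V s} {v : V ⊕ Fin s → Prop} :
    g.frozen v v ↔ g.value v := by
  cases g with
  | and J => exact Iff.rfl
  | or J => exact Iff.rfl
  | test m q Y =>
    constructor
    · rintro ⟨e, he, h1, h2⟩
      have : e = vec v q := le_antisymm h2 h1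
      rw [this] at he
      exact he
    · intro h
      exact ⟨_, h, le_rfl, le_rfl⟩

/-- Without an event the frozen value is the value. -/
theorem Gate.frozen_iff {g : Gate V s} {v0 v : V ⊕ Fin s → Prop}
    (h : ∀ w ∈ g.wires, v0 w → v w) (hno : ¬ g.Hit v0 v) : g.frozen v0 v ↔ g.value v := by
  cases g with
  | and J => exact Iff.rfl
  | or J => exact Iff.rfl
  | test m q Y =>
    constructor
    · rintro ⟨e, he, h1, h2⟩
      rcases h2.lt_or_eq with h3 | h3
      · exact absurd ⟨e, he, h1, h3⟩ hno
      · rw [h3] at he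
        exact he
    · intro h'
      exact ⟨_, h', vec_mono fun j => h _ ⟨j, rfl⟩, le_rfl⟩

/-- Without an event the value can only increase. -/
theorem Gate.value_mono {g : Gate V s} {v0 v : V ⊕ Fin s → Prop}
    (h : ∀ w ∈ g.wires, v0 w → v w) (hno : ¬ g.Hit v0 v) : g.value v0 → g.value v := by
  intro h'
  rw [← Gate.frozen_iff h hno]
  exact Gate.frozen_mono h (Gate.frozen_self.2 h')

theorem Circuit.exists_eval (D : Circuit V s) (x : V → Prop) : ∃ val, D.IsEval x val := by
  obtain ⟨f, hf⟩ := CliqueModules.exists_rec (α := Prop)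
    (fun i val => (D.gate i).value (Sum.elim x val)) (by
    intro i f g hfg
    apply propext
    apply Gate.value_congr
    intro w hw
    cases w with
    | inl v => exact Iff.rfl
    | inr j => exact iff_of_eq (hfg j (D.acyclic i j hw)))
  exact ⟨f, fun i => iff_of_eq (hf i)⟩

theorem Circuit.exists_frozen (D : Circuit V s) (v0 : V ⊕ Fin s → Prop) (x : V → Prop) :
    ∃ val, D.IsFrozen v0 x val := by
  obtain ⟨f, hf⟩ := CliqueModules.exists_rec (α := Prop)
    (fun i val => (D.gate i).frozen v0 (Sum.elim x val)) (by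
    intro i f g hfg
    apply propext
    apply Gate.frozen_congr
    intro w hw
    cases w with
    | inl v => exact Iff.rfl
    | inr j => exact iff_of_eq (hfg j (D.acyclic i j hw)))
  exact ⟨f, fun i => iff_of_eq (hf i)⟩

theorem Circuit.IsEval.unique {D : Circuit V s} {x : V → Prop} {val val' : Fin s → Prop}
    (h : D.IsEval x val) (h' : D.IsEval x val') : val = val' := by
  funext i
  apply propext
  induction i using WellFoundedLT.induction with
  | ind i ih =>
    rw [h i, h' i]
    apply Gate.value_congr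
    intro w hw
    cases w with
    | inl v => exact Iff.rfl
    | inr j => exact ih j (D.acyclic i j hw)

theorem Circuit.IsFrozen.unique {D : Circuit V s} {v0 : V ⊕ Fin s → Prop} {x : V → Prop}
    {val val' : Fin s → Prop} (h : D.IsFrozen v0 x val) (h' : D.IsFrozen v0 x val') :
    val = val' := by
  funext i
  apply propext
  induction i using WellFoundedLT.induction with
  | ind i ih =>
    rw [h i, h' i]
    apply Gate.frozen_congr
    intro w hw
    cases w with
    | inl v => exact Iff.rfl
    | inr j => exact ih j (D.acyclic i j hw)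

theorem Circuit.IsFrozen.mono {D : Circuit V s} {v0 : V ⊕ Fin s → Prop} {x x' : V → Prop}
    {val val' : Fin s → Prop} (h : D.IsFrozen v0 x val) (h' : D.IsFrozen v0 x' val')
    (hx : ∀ v, x v → x' v) : ∀ w : V ⊕ Fin s, Sum.elim x val w → Sum.elim x' val' w := by
  have key : ∀ i, val i → val' i := by
    intro i
    induction i using WellFoundedLT.induction with
    | ind i ih =>
      rw [h i, h' i]
      apply Gate.frozen_mono
      intro w hw
      cases w with
      | inl v => exact hx v
      | inr j => exact ih j (D.acyclic i j hw)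
  intro w
  cases w with
  | inl v => exact hx v
  | inr j => exact key j

/-- A true evaluation is frozen at its own values. -/
theorem Circuit.IsEval.isFrozen {D : Circuit V s} {x : V → Prop} {val : Fin s → Prop}
    (h : D.IsEval x val) : D.IsFrozen (Sum.elim x val) x val := by
  intro i
  rw [h i, Gate.frozen_self]

/-- A frozen evaluation without events is the true evaluation. -/
theorem Circuit.IsFrozen.isEval {D : Circuit V s} {x x' : V → Prop} {val val' : Fin s → Prop}
    (h : D.IsEval x val) (h' : D.IsFrozen (Sum.elim x val) x' val') (hx : ∀ v, x v → x' v)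
    (hno : ∀ i, ¬ (D.gate i).Hit (Sum.elim x val) (Sum.elim x' val')) : D.IsEval x' val' := by
  intro i
  rw [h' i]
  exact Gate.frozen_iff (fun w _ => h.isFrozen.mono h' hx w) (hno i)

/-- Monotonicity of the true evaluation in the absence of events. -/
theorem Circuit.IsEval.mono {D : Circuit V s} {x x' : V → Prop} {val val' : Fin s → Prop}
    (h : D.IsEval x val) (h' : D.IsEval x' val') (hx : ∀ v, x v → x' v)
    (hno : ∀ i, ¬ (D.gate i).Hit (Sum.elim x val) (Sum.elim x' val')) :
    ∀ w : V ⊕ Fin s, Sum.elim x val w → Sum.elim x' val' w := by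
  have key : ∀ i, val i → val' i := by
    intro i
    induction i using WellFoundedLT.induction with
    | ind i ih =>
      rw [h i, h' i]
      refine Gate.value_mono ?_ (hno i)
      intro w hw
      cases w with
      | inl v => exact hx v
      | inr j => exact ih j (D.acyclic i j hw)
  intro w
  cases w with
  | inl v => exact hx v
  | inr j => exact key j

/-- A true evaluation without events is the frozen evaluation. -/
theorem Circuit.IsEval.frozen {D : Circuit V s} {x x' : V → Prop} {val val' : Fin s → Prop}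
    (h : D.IsEval x val) (h' : D.IsEval x' val') (hx : ∀ v, x v → x' v)
    (hno : ∀ i, ¬ (D.gate i).Hit (Sum.elim x val) (Sum.elim x' val')) :
    D.IsFrozen (Sum.elim x val) x' val' := by
  intro i
  rw [h' i]
  exact (Gate.frozen_iff (fun w _ => h.mono h' hx hno w) (hno i)).symm

end Pool.Agent.SparseGates
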